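import Pool.Agent.H255R3.SR.Reach
import Pool.Agent.H255R3.SR.Fo

/-!
# Definability of reachability in first-order logic with symmetric transitive closure
-/

set_option autoImplicit false

namespace Pool.Agent.H255R3.SR

open Relation
open Pool.Agent.H255R3.AR (IndepLe Ball closed_eq ExU)

theorem cons_comp_cons {V : Type} {m : ℕ} (v : Fin m) (ν : Fin m → V) :
    ν ∘ (Fin.cons v id : Fin (m + 1) → Fin m) = Fin.cons (ν v) ν := by
  funext i
  refine Fin.cases ?_ (fun j => ?_) i <;> simp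

theorem comp_lift_succ {V : Type} {m : ℕ} (w a : V) (ν : Fin m → V) :
    (Fin.cons w (Fin.cons a ν : Fin (m + 1) → V) : Fin (m + 2) → V) ∘ liftR Fin.succ =
      Fin.cons w ν := by
  funext i
  refine Fin.cases ?_ (fun j => ?_) i <;> simp [liftR]

theorem comp_swap {V : Type} {n m : ℕ} (f : Fin n → Fin m) (w a : V) (ν : Fin m → V) :
    (Fin.cons w (Fin.cons a ν : Fin (m + 1) → V) : Fin (m + 2) → V) ∘
      (Fin.cons (Fin.succ 0) (Fin.cons 0 (fun i => (f i).succ.succ) : Fin (n + 1) → Fin (m + 2)) :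
        Fin (n + 2) → Fin (m + 2)) = Fin.cons a (Fin.cons w (ν ∘ f) : Fin (n + 1) → V) := by
  funext i
  refine Fin.cases ?_ (fun j => ?_) i
  · rfl
  · refine Fin.cases ?_ (fun l => ?_) j
    · rfl
    · rfl

/-- A functional on sets with parameters. -/
abbrev Fnl (n : ℕ) :=
  ∀ (V : Type), (V → V → Prop) → (V → Prop) → (Fin n → V) → (V → Prop) → Prop

/-- The functional maps definable sets to definable properties. -/
def UD {n : ℕ} (Φ : Fnl n) : Prop :=
  ∀ (m : ℕ) (f : Fin n → Fin m) (S : Qry (m + 1)), Dfn S →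
    Dfn (n := m) (fun V E U ν => Φ V E U (ν ∘ f) (fun w => S V E U (Fin.cons w ν)))

theorem ud_ExU {n : ℕ} {Bl : Qry (n + 2)} (hBl : Dfn Bl) {Φ : Fnl n} (hΦ : UD Φ) (k : ℕ) :
    UD (fun V E U ν S => ExU (fun z w => Bl V E U (Fin.cons z (Fin.cons w ν)))
      (Φ V E U ν) k S) := by
  induction k with
  | zero => exact hΦ
  | succ k ih =>
    intro m f S hS
    have h1 := ih m f S hS
    have hS' : Dfn (n := m + 2) (fun V E U ν => S V E U (ν ∘ liftR Fin.succ) ∨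
        Bl V E U (ν ∘ (Fin.cons (Fin.succ 0) (Fin.cons 0 (fun i => (f i).succ.succ) :
          Fin (n + 1) → Fin (m + 2)) : Fin (n + 2) → Fin (m + 2)))) :=
      (hS.ren _).or (hBl.ren _)
    have h2 := ih (m + 1) (fun i => (f i).succ) _ hS'
    refine (h1.or h2.ex).congr fun V E U ν => ?_
    simp only [comp_lift_succ, comp_swap]
    rfl

theorem dfn_sep {m : ℕ} (i j : Fin m) {M : Qry (m + 1)} (hM : Dfn M) :
    Dfn (n := m) (fun V E U ν => Sep E (fun w => M V E U (Fin.cons w ν)) (ν i) (ν j)) := by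
  have h1 : ∀ v : Fin m, Dfn (n := m) (fun V E U ν => M V E U (Fin.cons (ν v) ν)) := fun v =>
    (hM.ren (Fin.cons v id : Fin (m + 1) → Fin m)).congr fun V E U ν => by
      rw [cons_comp_cons]
  have h2 : Dfn (n := m + 2) (fun V E U ν => M V E U (ν ∘ liftR Fin.succ)) := hM.ren _
  have h3 : Dfn (n := m + 1) (fun V E U ν => ∀ x, E (ν 0) x →
      M V E U ((Fin.cons x ν : Fin (m + 2) → V) ∘ liftR Fin.succ)) :=
    ((Dfn.edge (Fin.succ 0) 0).imp h2).all.congr fun V E U ν => Iff.rfl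
  refine (((h1 i).and (h1 j).neg).and (hM.imp h3).all).congr fun V E U ν => ?_
  simp only [Sep, comp_lift_succ]
  rfl

theorem dfn_reg {m : ℕ} (s : Fin m) {Rq : Qry 2} (hRq : Dfn Rq) {X : Qry (m + 1)} (hX : Dfn X) :
    Dfn (n := m + 1) (fun V E U ν => Reg E U (fun x y => Rq V E U ![x, y]) (ν s.succ)
      (fun w => X V E U (Fin.cons w fun i => ν i.succ)) (ν 0)) := by
  have h0 : Dfn (n := m + 1) (fun V E U ν => X V E U (Fin.cons (ν 0) fun i => ν i.succ)) :=
    hX.congr fun V E U ν => by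
      have hc : (Fin.cons (ν 0) fun i => ν i.succ : Fin (m + 1) → V) = ν := by
        funext i; refine Fin.cases ?_ (fun j => ?_) i <;> rfl
      rw [hc]
  have h1 : Dfn (n := m + 2) (fun V E U ν => Rq V E U ![ν 0, ν (Fin.succ 0)]) :=
    (hRq.ren ![0, Fin.succ 0]).congr fun V E U ν => by
      have hc : ν ∘ (![0, Fin.succ 0] : Fin 2 → Fin (m + 2)) = ![ν 0, ν (Fin.succ 0)] := by
        funext i
        fin_cases i <;> rfl
      rw [hc]
  have h2 : Dfn (n := m + 3) (fun V E U ν =>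
      X V E U (Fin.cons (ν 0) fun i => ν i.succ.succ.succ)) :=
    (hX.ren (Fin.cons 0 (fun i => i.succ.succ.succ) : Fin (m + 1) → Fin (m + 3))).congr
      fun V E U ν => by
        rw [show ν ∘ (Fin.cons 0 (fun i => i.succ.succ.succ) : Fin (m + 1) → Fin (m + 3)) =
          Fin.cons (ν 0) (fun i => ν i.succ.succ.succ) from by
            funext i; refine Fin.cases ?_ (fun j => ?_) i <;> rfl]
  have h3 : Dfn (n := m + 2) (fun V E U ν => ∃ x,
      (U x ∧ X V E U (Fin.cons x fun i => ν i.succ.succ)) ∧ E x (ν 0)) :=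
    (((Dfn.uni 0).and h2).and (Dfn.edge 0 (Fin.succ 0))).ex.congr fun V E U ν => Iff.rfl
  have h4 : Dfn (n := m + 1) (fun V E U ν => ∃ p, ¬ U p ∧ (Rq V E U ![p, ν 0] ∧
      (p = ν s.succ ∨ ∃ x, (U x ∧ X V E U (Fin.cons x fun i => ν i.succ)) ∧ E x p))) :=
    ((Dfn.uni (n := m + 2) 0).neg.and (h1.and ((Dfn.eq 0 s.succ.succ).or h3))).ex.congr
      fun V E U ν => Iff.rfl
  exact (((Dfn.uni 0).and h0).or ((Dfn.uni 0).neg.and h4)).congr fun V E U ν => Iff.rfl

theorem dfn_NR {Bq : Qry 2} (hBq : Dfn Bq) {Rq : Qry 2} (hRq : Dfn Rq) (k : ℕ) :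
    Dfn (n := 2) (fun V E U ν => NR E U (fun z w => Bq V E U ![z, w])
      (fun x y => Rq V E U ![x, y]) k (ν 0) (ν 1)) := by
  have hB : Dfn (n := 4) (fun V E U ν => Bq V E U ![ν 0, ν 1]) :=
    (hBq.ren ![0, 1]).congr fun V E U ν => by
      have hc : ν ∘ (![0, 1] : Fin 2 → Fin 4) = ![ν 0, ν 1] := by
        funext i
        fin_cases i <;> rfl
      rw [hc]
  have hin : UD (n := 2) (fun V E U ν X =>
      Sep E (Reg E U (fun x y => Rq V E U ![x, y]) (ν 0) X) (ν 0) (ν 1)) := by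
    intro m f X hX
    exact (dfn_sep (f 0) (f 1) (dfn_reg (f 0) hRq hX)).congr fun V E U ν => Iff.rfl
  have h := ud_ExU (n := 2) hB hin k 2 id (fun _ _ _ _ => False)
    (((Dfn.eq (n := 3) 0 0).neg).congr fun V E U ν => by simp)
  exact h.congr fun V E U ν => Iff.rfl

theorem transfer (k : ℕ) (χ ψ : Fo 2) : ∃ φ : Fo 2,
    ∀ (V : Type) [Finite V] (E : V → V → Prop) (U : V → Prop), WidthLe E U k →
      (∀ x y, U x → U y → (χ.Holds E U ![x, y] ↔ ReachIn E U x y)) →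
      (∀ x y, ¬ U x → ¬ U y → (ψ.Holds E U ![x, y] ↔ ReachIn E (fun v => ¬ U v) x y)) →
      ∀ s t : V, φ.Holds E U ![s, t] ↔ ReflTransGen E s t := by
  have hχ : Dfn (n := 2) (fun V E U ν => (U (ν 0) ∧ U (ν 1)) ∧ χ.Holds E U ν) :=
    ((Dfn.uni 0).and (Dfn.uni 1)).and ⟨χ, fun _ _ _ _ => Iff.rfl⟩
  have hψ : Dfn (n := 2) (fun V E U ν => ψ.Holds E U ν) := ⟨ψ, fun _ _ _ _ => Iff.rfl⟩
  obtain ⟨φ, hφ⟩ := (dfn_NR hχ hψ k).neg
  refine ⟨φ, fun V _ E U hk h1 h2 s t => ?_⟩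
  have hφ' := hφ V E U ![s, t]
  rw [hφ']
  constructor
  · intro h
    by_contra h3
    refine h (NR_complete h2 (exists_gen hk (fun x y => ?_) s) h3)
    show (U x ∧ U y) ∧ χ.Holds E U ![x, y] ↔ _
    exact and_congr_right fun h4 => h1 x y h4.1 h4.2
  · exact fun h h3 => NR_sound h3 h

theorem mixed (k : ℕ) : ∃ φ : Fo 2,
    ∀ (V : Type) [Finite V] (E : V → V → Prop) (U : V → Prop), IndepLe E U k →
      (∀ a b, ¬ U a → ¬ U b → E a b → E b a) →
      ∀ s t : V, φ.Holds E U ![s, t] ↔ ReflTransGen E s t := by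
  have hB : Dfn (n := 2) (fun V E U ν => Ball E U (ν 0) (ν 1)) := by
    have h3 : Dfn (n := 2) (fun V E U ν => ∃ x, U x ∧ (E (ν 0) x ∧ E x (ν 1))) :=
      ((Dfn.uni (n := 3) 0).and ((Dfn.edge 1 0).and (Dfn.edge 0 2))).ex.congr
        fun V E U ν => Iff.rfl
    exact (((Dfn.uni 1).and (Dfn.uni 0)).and ((Dfn.eq 1 0).or ((Dfn.edge 0 1).or h3))).congr
      fun V E U ν => Iff.rfl
  have hψ : Dfn (n := 2) (fun V E U ν => ReflTransGen (fun a b => In E (fun v => ¬ U v) a b ∨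
      In E (fun v => ¬ U v) b a) (ν 0) (ν 1)) :=
    (Dfn.stc (((Dfn.uni (n := 4) 0).neg.and (Dfn.uni 1).neg).and (Dfn.edge 0 1)) 0 1).congr
      fun V E U ν => Iff.rfl
  obtain ⟨φ, hφ⟩ := (dfn_NR hB hψ k).neg
  refine ⟨φ, fun V _ E U hk hsym s t => ?_⟩
  have hφ' := hφ V E U ![s, t]
  rw [hφ']
  constructor
  · intro h
    by_contra h3
    refine h (NR_complete (fun x y _ _ => ?_) (closed_eq hk (fun a ha => ha.1)
      fun a b ha hb hab => ⟨hb, ha.2.tail hab⟩) h3)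
    have hs : (fun a b => In E (fun v => ¬ U v) a b ∨ In E (fun v => ¬ U v) b a) =
        In E (fun v => ¬ U v) := by
      funext a b
      apply propext
      refine ⟨?_, Or.inl⟩
      rintro (h4 | h4)
      · exact h4
      · exact ⟨⟨h4.1.2, h4.1.1⟩, hsym b a h4.1.1 h4.1.2 h4.2⟩
    show ReflTransGen (fun a b => In E (fun v => ¬ U v) a b ∨ In E (fun v => ¬ U v) b a) x y ↔ _
    rw [hs]
    rfl
  · exact fun h h3 => NR_sound h3 h

end Pool.Agent.H255R3.SR
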