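import Pool.Agent.H255R3.AR.Core

/-!
# Reachability in digraphs with a vertex set partitioned into two parts
-/

set_option autoImplicit false

open Classical

namespace Pool.Agent.H255R3.SR

open Relation
open Pool.Agent.H255R3.AR (IndepLe Ball closed_eq ExU ExU_sound ExU_complete)

variable {V : Type}

/-- The arcs between vertices with property `W`. -/
def In (E : V → V → Prop) (W : V → Prop) (a b : V) : Prop := (W a ∧ W b) ∧ E a b

/-- `w` is reachable from `v` by a walk all of whose vertices have property `W`. -/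
def ReachIn (E : V → V → Prop) (W : V → Prop) (v w : V) : Prop := ReflTransGen (In E W) v w

/-- Among any `k + 1` vertices with property `W` there are two of which one is reachable from the
other inside `W`. -/
def WidthLe (E : V → V → Prop) (W : V → Prop) (k : ℕ) : Prop :=
  ∀ s : Finset V, (∀ a ∈ s, W a) → (∀ a ∈ s, ∀ b ∈ s, a ≠ b → ¬ ReachIn E W a b) → s.card ≤ k

/-- The set determined by a set `X` of vertices in `U`, a relation `R` on the complement of `U` and
the source `s`. -/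
def Reg (E : V → V → Prop) (U : V → Prop) (R : V → V → Prop) (s : V) (X : V → Prop) (w : V) :
    Prop :=
  (U w ∧ X w) ∨ (¬ U w ∧ ∃ p, ¬ U p ∧ (R p w ∧ (p = s ∨ ∃ x, (U x ∧ X x) ∧ E x p)))

/-- The set contains `s` but not `t` and is closed. -/
def Sep (E : V → V → Prop) (M : V → Prop) (s t : V) : Prop :=
  (M s ∧ ¬ M t) ∧ ∀ a, M a → ∀ b, E a b → M b

/-- The query that defines non-reachability. -/
def NR (E : V → V → Prop) (U : V → Prop) (Bl R : V → V → Prop) (k : ℕ) (s t : V) : Prop :=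
  ExU Bl (fun X => Sep E (Reg E U R s X) s t) k (fun _ => False)

theorem NR_sound {E : V → V → Prop} {U : V → Prop} {Bl R : V → V → Prop} {k : ℕ} {s t : V}
    (h : NR E U Bl R k s t) : ¬ ReflTransGen E s t := by
  obtain ⟨X, ⟨h1, h2⟩, h3⟩ := ExU_sound k _ h
  intro hst
  have key : ∀ w, ReflTransGen E s w → Reg E U R s X w := by
    intro w hw
    induction hw with
    | refl => exact h1
    | tail _ hab ih => exact h3 _ ih _ hab
  exact h2 (key t hst)

theorem reach_of_reachIn {E : V → V → Prop} {W : V → Prop} {v w : V} (h : ReachIn E W v w) :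
    ReflTransGen E v w := by
  induction h with
  | refl => exact .refl
  | tail _ h ih => exact ih.tail h.2

theorem last_part {E : V → V → Prop} {U : V → Prop} {s w : V} (h : ReflTransGen E s w) :
    ¬ U w → ∃ p, ¬ U p ∧ (ReachIn E (fun v => ¬ U v) p w ∧
      (p = s ∨ ∃ x, (U x ∧ U x ∧ ReflTransGen E s x) ∧ E x p)) := by
  induction h with
  | refl => exact fun h => ⟨s, h, .refl, Or.inl rfl⟩
  | @tail a b h hab ih =>
    intro hb
    by_cases ha : U a
    · exact ⟨b, hb, .refl, Or.inr ⟨a, ⟨ha, ha, h⟩, hab⟩⟩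
    · obtain ⟨p, hp, h1, h2⟩ := ih ha
      exact ⟨p, hp, .tail h1 ⟨⟨ha, hb⟩, hab⟩, h2⟩

theorem NR_complete {E : V → V → Prop} {U : V → Prop} {Bl R : V → V → Prop} {k : ℕ} {s t : V}
    (hR : ∀ x y, ¬ U x → ¬ U y → (R x y ↔ ReachIn E (fun v => ¬ U v) x y))
    (hQ : ∃ Q : Finset V, Q.card ≤ k ∧ ∀ w, (U w ∧ ReflTransGen E s w) ↔ ∃ q ∈ Q, Bl q w)
    (h : ¬ ReflTransGen E s t) : NR E U Bl R k s t := by
  obtain ⟨Q, hQ, hQ'⟩ := hQ
  refine ExU_complete k _ Q hQ ?_
  have hX : (fun w => False ∨ ∃ q ∈ Q, Bl q w) = fun w => U w ∧ ReflTransGen E s w := by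
    funext w
    apply propext
    rw [false_or, ← hQ']
  rw [hX]
  have hM : Reg E U R s (fun w => U w ∧ ReflTransGen E s w) = fun w => ReflTransGen E s w := by
    funext w
    apply propext
    constructor
    · rintro (h1 | ⟨h1, p, hp, h2, h3⟩)
      · exact h1.2.2
      · have h4 : ReflTransGen E s p := by
          rcases h3 with rfl | ⟨x, hx, hxp⟩
          · exact .refl
          · exact hx.2.2.tail hxp
        exact h4.trans (reach_of_reachIn ((hR p w hp h1).1 h2))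
    · intro hw
      by_cases hU : U w
      · exact Or.inl ⟨hU, hU, hw⟩
      · obtain ⟨p, hp, h1, h2⟩ := last_part hw hU
        exact Or.inr ⟨hU, p, hp, (hR p w hp hU).2 h1, h2⟩
  rw [hM]
  exact ⟨⟨.refl, h⟩, fun a ha b hab => ha.tail hab⟩

/-- Few generators. -/
theorem exists_gen [Finite V] {E : V → V → Prop} {U : V → Prop} {k : ℕ} (hk : WidthLe E U k)
    {Bl : V → V → Prop} (hBl : ∀ x y, Bl x y ↔ (U x ∧ U y) ∧ ReachIn E U x y) (s : V) :
    ∃ Q : Finset V, Q.card ≤ k ∧ ∀ w, (U w ∧ ReflTransGen E s w) ↔ ∃ q ∈ Q, Bl q w := by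
  have := Fintype.ofFinite V
  -- generating sets
  let G : Finset V → Prop := fun Q => (∀ q ∈ Q, U q ∧ ReflTransGen E s q) ∧
    ∀ w, U w → ReflTransGen E s w → ∃ q ∈ Q, ReachIn E U q w
  have hG : ∃ n, ∃ Q, G Q ∧ Q.card = n :=
    ⟨_, Finset.univ.filter (fun w => U w ∧ ReflTransGen E s w),
      ⟨fun q hq => (Finset.mem_filter.1 hq).2, fun w h1 h2 =>
        ⟨w, by simp [h1, h2], .refl⟩⟩, rfl⟩
  obtain ⟨Q, hQ, hcard⟩ := Nat.find_spec hG
  refine ⟨Q, hk Q (fun a ha => (hQ.1 a ha).1) fun a ha b hb hab hreach => ?_, fun w => ?_⟩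
  · have hlt : (Q.erase b).card < Nat.find hG := by
      rw [← hcard]
      exact Finset.card_erase_lt_of_mem hb
    refine Nat.find_min hG hlt ⟨Q.erase b, ⟨fun q hq => hQ.1 q (Finset.mem_of_mem_erase hq),
      fun w h1 h2 => ?_⟩, rfl⟩
    obtain ⟨q, hq, h3⟩ := hQ.2 w h1 h2
    by_cases hqb : q = b
    · rw [hqb] at h3
      exact ⟨a, Finset.mem_erase.2 ⟨hab, ha⟩, hreach.trans h3⟩
    · exact ⟨q, Finset.mem_erase.2 ⟨hqb, hq⟩, h3⟩
  · constructor
    · rintro ⟨h1, h2⟩
      obtain ⟨q, hq, h3⟩ := hQ.2 w h1 h2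
      exact ⟨q, hq, (hBl q w).2 ⟨⟨(hQ.1 q hq).1, h1⟩, h3⟩⟩
    · rintro ⟨q, hq, h3⟩
      obtain ⟨⟨_, h4⟩, h5⟩ := (hBl q w).1 h3
      exact ⟨h4, (hQ.1 q hq).2.trans (reach_of_reachIn h5)⟩

end Pool.Agent.H255R3.SR
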